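import Mathlib
import Pool.Agent.H261R3.LN.UStmts

/-! Task U0 of project LM: short paths in a Lipschitz neighbourhood retract. -/

set_option autoImplicit false

open scoped NNReal ENNReal unitInterval

namespace Pool.Agent.H859R3.LN

open Pool.Agent.H261R3.LH (IsLNR)
open Pool.Agent.H261R3.LN

section
variable {S : Type} [MetricSpace S] {m : ℕ} {ι : S → EuclideanSpace ℝ (Fin m)}
  {r : EuclideanSpace ℝ (Fin m) → S} {K : ℝ≥0} {ρ : ℝ}

theorem mem_thick (y : S) {z : EuclideanSpace ℝ (Fin m)} (h : ‖z - ι y‖ < ρ) :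
    z ∈ Metric.thickening ρ (Set.range ι) :=
  Metric.mem_thickening_iff.2 ⟨ι y, ⟨y, rfl⟩, by rw [dist_eq_norm]; exact h⟩

theorem norm_sub_le (hι : LipschitzWith K ι) (x y : S) : ‖ι x - ι y‖ ≤ K * dist y x := by
  rw [← dist_eq_norm, dist_comm y x]
  exact hι.dist_le_mul x y

/-- The image of the segment. -/
noncomputable def segPath (hι : LipschitzWith K ι)
    (hr : LipschitzOnWith K r (Metric.thickening ρ (Set.range ι))) (hrι : ∀ x, r (ι x) = x)
    (y y' : S) (h : K * dist y y' < ρ) : Path y y' where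
  toFun t := r (ι y + (t : ℝ) • (ι y' - ι y))
  continuous_toFun := by
    refine hr.continuousOn.comp_continuous (by fun_prop) (fun t => mem_thick y ?_)
    rw [add_sub_cancel_left, norm_smul, Real.norm_eq_abs, abs_of_nonneg t.2.1]
    calc (t : ℝ) * ‖ι y' - ι y‖ ≤ 1 * ‖ι y' - ι y‖ :=
          mul_le_mul_of_nonneg_right t.2.2 (norm_nonneg _)
      _ ≤ K * dist y y' := by rw [one_mul]; exact norm_sub_le hι _ _
      _ < ρ := h
  source' := by simp [hrι]
  target' := by simp [hrι]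

theorem segPath_dist (hι : LipschitzWith K ι)
    (hr : LipschitzOnWith K r (Metric.thickening ρ (Set.range ι))) (hrι : ∀ x, r (ι x) = x)
    (hρ : 0 < ρ) (y y' : S) (h : K * dist y y' < ρ) (t : I) :
    dist y (segPath hι hr hrι y y' h t) ≤ (K : ℝ) ^ 2 * dist y y' := by
  show dist y (r (ι y + (t : ℝ) • (ι y' - ι y))) ≤ _
  have h0 : ‖(t : ℝ) • (ι y' - ι y)‖ ≤ K * dist y y' := by
    rw [norm_smul, Real.norm_eq_abs, abs_of_nonneg t.2.1]
    calc (t : ℝ) * ‖ι y' - ι y‖ ≤ 1 * ‖ι y' - ι y‖ :=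
          mul_le_mul_of_nonneg_right t.2.2 (norm_nonneg _)
      _ ≤ K * dist y y' := by rw [one_mul]; exact norm_sub_le hι _ _
  have h1 : ι y + (t : ℝ) • (ι y' - ι y) ∈ Metric.thickening ρ (Set.range ι) := by
    refine mem_thick y ?_
    rw [add_sub_cancel_left]
    exact lt_of_le_of_lt h0 h
  have h2 : ι y ∈ Metric.thickening ρ (Set.range ι) := by
    refine mem_thick y ?_
    rw [sub_self, norm_zero]
    exact hρ
  have h3 := hr.dist_le_mul _ h2 _ h1
  rw [hrι] at h3
  refine h3.trans ?_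
  rw [dist_eq_norm, sub_add_cancel_left, norm_neg, sq, mul_assoc]
  exact mul_le_mul_of_nonneg_left h0 K.2

theorem homotopic_of_close (hι : LipschitzWith K ι)
    (hr : LipschitzOnWith K r (Metric.thickening ρ (Set.range ι))) (hrι : ∀ x, r (ι x) = x)
    {y y' : S} (γ₁ γ₂ : Path y y') (h1 : ∀ t, K * dist y (γ₁ t) < ρ)
    (h2 : ∀ t, K * dist y (γ₂ t) < ρ) : γ₁.Homotopic γ₂ := by
  have hc : Continuous fun p : I × I =>
      (1 - (p.1 : ℝ)) • ι (γ₁ p.2) + (p.1 : ℝ) • ι (γ₂ p.2) := by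
    have := hι.continuous
    fun_prop
  have hmem : ∀ p : I × I, (1 - (p.1 : ℝ)) • ι (γ₁ p.2) + (p.1 : ℝ) • ι (γ₂ p.2) ∈
      Metric.thickening ρ (Set.range ι) := by
    intro p
    refine mem_thick y ?_
    have e : (1 - (p.1 : ℝ)) • ι (γ₁ p.2) + (p.1 : ℝ) • ι (γ₂ p.2) - ι y =
        (1 - (p.1 : ℝ)) • (ι (γ₁ p.2) - ι y) + (p.1 : ℝ) • (ι (γ₂ p.2) - ι y) := by
      module
    rw [e]
    have hp0 := p.1.2.1
    have hp1 := p.1.2.2
    have ha := norm_sub_le hι (γ₁ p.2) y
    have hb := norm_sub_le hι (γ₂ p.2) y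
    have ha' := h1 p.2
    have hb' := h2 p.2
    have hn := norm_add_le ((1 - (p.1 : ℝ)) • (ι (γ₁ p.2) - ι y))
      ((p.1 : ℝ) • (ι (γ₂ p.2) - ι y))
    rw [norm_smul, norm_smul, Real.norm_eq_abs, Real.norm_eq_abs, abs_of_nonneg hp0,
      abs_of_nonneg (by linarith : (0 : ℝ) ≤ 1 - p.1)] at hn
    have hA : ‖ι (γ₁ p.2) - ι y‖ < ρ := lt_of_le_of_lt ha ha'
    have hB : ‖ι (γ₂ p.2) - ι y‖ < ρ := lt_of_le_of_lt hb hb'
    refine lt_of_le_of_lt hn ?_
    rcases eq_or_lt_of_le hp0 with h | h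
    · rw [← h]; simpa using hA
    · nlinarith [mul_lt_mul_of_pos_left hB h,
        mul_le_mul_of_nonneg_left hA.le (by linarith : (0 : ℝ) ≤ 1 - p.1)]
  refine ⟨{ toFun := fun p => r ((1 - (p.1 : ℝ)) • ι (γ₁ p.2) + (p.1 : ℝ) • ι (γ₂ p.2))
            continuous_toFun := hr.continuousOn.comp_continuous hc hmem
            map_zero_left := fun t => by simp [hrι]
            map_one_left := fun t => by simp [hrι]
            prop' := ?_ }⟩
  intro s t ht
  rcases ht with ht | ht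
  · subst ht
    show r ((1 - (s : ℝ)) • ι (γ₁ 0) + (s : ℝ) • ι (γ₂ 0)) = γ₁ 0
    rw [γ₁.source, γ₂.source, ← add_smul]
    simp [hrι]
  · have ht' : t = 1 := ht
    subst ht'
    show r ((1 - (s : ℝ)) • ι (γ₁ 1) + (s : ℝ) • ι (γ₂ 1)) = γ₁ 1
    rw [γ₁.target, γ₂.target, ← add_smul]
    simp [hrι]

end

open Classical in
theorem taskU0 : TaskU0 := by
  intro S _ _ _ hS
  obtain ⟨m, ι, r, K, ρ, hρ, hι, hr, hrι⟩ := hS
  set k : ℝ := (K : ℝ) + 1 with hk
  have hK0 : (0 : ℝ) ≤ K := K.2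
  have hk1 : 1 ≤ k := by rw [hk]; linarith
  set ε : ℝ := ρ / (2 * k * (1 + k ^ 2)) with hε
  have hden : 0 < 2 * k * (1 + k ^ 2) := by positivity
  have hεpos : 0 < ε := div_pos hρ hden
  have hkε : k * (1 + k ^ 2) * ε = ρ / 2 := by
    rw [hε]; field_simp
  -- the basic estimate
  have hbig : ∀ d : ℝ, d ≤ (1 + k ^ 2) * ε → K * d < ρ := by
    intro d hd
    have h1 : K * d ≤ K * ((1 + k ^ 2) * ε) := mul_le_mul_of_nonneg_left hd hK0
    have h2 : (K : ℝ) * ((1 + k ^ 2) * ε) ≤ k * ((1 + k ^ 2) * ε) :=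
      mul_le_mul_of_nonneg_right (by rw [hk]; linarith) (by positivity)
    have h3 : k * ((1 + k ^ 2) * ε) = ρ / 2 := by rw [← hkε]; ring
    linarith
  have hk2 : (K : ℝ) ^ 2 ≤ k ^ 2 := pow_le_pow_left₀ hK0 (by rw [hk]; linarith) 2
  have hlt : ∀ y y' : S, dist y y' < ε → K * dist y y' < ρ := fun y y' h =>
    hbig _ (by nlinarith [sq_nonneg k])
  have hsp : ∀ (y y' : S) (h : dist y y' < ε) (t : I),
      dist y (segPath hι hr hrι y y' (hlt y y' h) t) ≤ k ^ 2 * ε := fun y y' h t =>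
    (segPath_dist hι hr hrι hρ y y' (hlt y y' h) t).trans
      (mul_le_mul hk2 h.le dist_nonneg (by positivity))
  refine ⟨ε, hεpos, ⟨ε / k ^ 2, by positivity, fun y y' h => ?_⟩, ⟨?_⟩⟩
  · have hδ : ε / k ^ 2 ≤ ε := div_le_self hεpos.le (by nlinarith)
    have h' : dist y y' < ε := lt_of_lt_of_le h hδ
    refine ⟨segPath hι hr hrι y y' (hlt y y' h'), fun t => ?_⟩
    refine lt_of_le_of_lt (segPath_dist hι hr hrι hρ y y' (hlt y y' h') t) ?_
    have hkk : 0 < k ^ 2 := by positivity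
    calc (K : ℝ) ^ 2 * dist y y' ≤ k ^ 2 * dist y y' :=
          mul_le_mul_of_nonneg_right hk2 dist_nonneg
      _ < k ^ 2 * (ε / k ^ 2) := mul_lt_mul_of_pos_left h hkk
      _ = ε := by field_simp
  · -- the classes
    let seg : ∀ y y' : S, Path.Homotopic.Quotient y y' := fun y y' =>
      if h : dist y y' < ε then
        Path.Homotopic.Quotient.mk (segPath hι hr hrι y y' (hlt y y' h))
      else Path.Homotopic.Quotient.mk (PathConnectedSpace.somePath y y')
    have hseg : ∀ (y y' : S) (h : dist y y' < ε), seg y y' =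
        Path.Homotopic.Quotient.mk (segPath hι hr hrι y y' (hlt y y' h)) := fun y y' h =>
      dif_pos h
    refine ⟨seg, ?_, ?_, ?_⟩
    · intro y
      have h : dist y y < ε := by rw [dist_self]; exact hεpos
      rw [hseg y y h, ← Path.Homotopic.Quotient.mk_refl]
      refine Path.Homotopic.Quotient.eq.2 ?_
      refine homotopic_of_close hι hr hrι _ _ (fun t => hbig _ ?_) (fun t => hbig _ ?_)
      · have := hsp y y h t
        linarith
      · simp only [Path.refl_apply, dist_self]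
        positivity
    · intro y y' y'' h1 h2 h3
      rw [hseg y y' h1, hseg y' y'' h2, hseg y y'' h3, ← Path.Homotopic.Quotient.mk_trans]
      refine Path.Homotopic.Quotient.eq.2 ?_
      refine homotopic_of_close hι hr hrι _ _ (fun t => hbig _ ?_) (fun t => hbig _ ?_)
      · rw [Path.trans_apply]
        split_ifs with ht
        · have := hsp y y' h1 ⟨2 * t, (unitInterval.mul_pos_mem_iff zero_lt_two).2 ⟨t.2.1, ht⟩⟩
          linarith
        · have h4 := hsp y' y'' h2
            ⟨2 * t - 1, unitInterval.two_mul_sub_one_mem_iff.2 ⟨(not_le.1 ht).le, t.2.2⟩⟩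
          have h5 := dist_triangle y y' (segPath hι hr hrι y' y'' (hlt y' y'' h2)
            ⟨2 * t - 1, unitInterval.two_mul_sub_one_mem_iff.2 ⟨(not_le.1 ht).le, t.2.2⟩⟩)
          linarith
      · have := hsp y y'' h3 t
        linarith
    · intro y y' γ hγ
      have h : dist y y' < ε := by
        have := hγ 1
        rwa [γ.target] at this
      rw [hseg y y' h]
      refine Path.Homotopic.Quotient.eq.2 ?_
      refine homotopic_of_close hι hr hrι _ _ (fun t => hbig _ ?_) (fun t => hbig _ ?_)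
      · have := hγ t
        nlinarith [sq_nonneg k]
      · have := hsp y y' h t
        linarith

end Pool.Agent.H859R3.LN
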